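import Pool.Agent.K4H91.MG.Core

/-!
# Directional derivatives of the gates of a program
-/

set_option autoImplicit false

namespace Pool.Agent.K4H91.MG

open Finset Filter Topology Set

/-- A gate with number `i`: an arbitrary function of the weights and of the values of the gates
before, or the minimum of the values of two gates before. -/
inductive Gate (E : Type) (i : ℕ) : Type
  | free (F : (E → ℝ) → (Fin i → ℝ) → ℝ) : Gate E i
  | min (a b : Fin i) : Gate E i

/-- the value of a gate from the weights and the values before -/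
noncomputable def Gate.app {E : Type} {i : ℕ} (g : Gate E i) (x : E → ℝ) (y : Fin i → ℝ) : ℝ :=
  match g with
  | .free F => F x y
  | .min a b => Min.min (y a) (y b)

/-- minimum gates -/
def Gate.isMin {E : Type} {i : ℕ} (g : Gate E i) : Bool :=
  match g with
  | .free _ => false
  | .min _ _ => true

/-- the values of the gates -/
noncomputable def val {E : Type} (g : ∀ i, Gate E i) (x : E → ℝ) (i : ℕ) : ℝ :=
  (g i).app x (fun j : Fin i => val g x j)
termination_by i
decreasing_by exact j.2

/-- At the weights `x`, gate `i` is a minimum gate, or its function is differentiable at the point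
of the weights and values before, with nonnegative partial derivatives in these values. -/
def LegalAt {E : Type} [Fintype E] (g : ∀ i, Gate E i) (x : E → ℝ) (i : ℕ) : Prop :=
  match g i with
  | .free F => DifferentiableAt ℝ (fun z : (E → ℝ) × (Fin i → ℝ) => F z.1 z.2)
      (x, fun j => val g x j) ∧
      ∀ j, 0 ≤ fderiv ℝ (fun z : (E → ℝ) × (Fin i → ℝ) => F z.1 z.2)
        (x, fun j => val g x j) (0, Pi.single j 1)
  | .min _ _ => True

theorem min_deriv {f h : ℝ → ℝ} {f' h' : ℝ} (hf : HasDerivWithinAt f f' (Ici 0) 0)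
    (hh : HasDerivWithinAt h h' (Ici 0) 0) (h0 : f 0 = h 0) :
    HasDerivWithinAt (fun t => min (f t) (h t)) (min f' h') (Ici 0) 0 := by
  rw [hasDerivWithinAt_iff_isLittleO] at *
  have h1 := hf.norm_left.add hh.norm_left
  refine Asymptotics.IsLittleO.trans_isBigO (Asymptotics.IsBigO.trans_isLittleO ?_ h1)
    (Asymptotics.isBigO_refl _ _)
  refine Asymptotics.IsBigO.of_bound 1 ?_
  filter_upwards [self_mem_nhdsWithin] with t ht
  have ht : 0 ≤ t := ht
  rw [one_mul]
  have e1 : min (f t) (h t) - min (f 0) (h 0) - (t - 0) • min f' h' =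
      min (f t) (h t) - min (f 0 + t * f') (h 0 + t * h') := by
    rw [← h0, min_self, min_add_add_left, smul_eq_mul, sub_zero, mul_min_of_nonneg _ _ ht]
    ring
  rw [e1]
  have e2 : f t - f 0 - (t - 0) • f' = f t - (f 0 + t * f') := by
    rw [smul_eq_mul]
    ring
  have e3 : h t - h 0 - (t - 0) • h' = h t - (h 0 + t * h') := by
    rw [smul_eq_mul]
    ring
  rw [e2, e3, Real.norm_eq_abs, Real.norm_eq_abs, Real.norm_eq_abs, Real.norm_eq_abs]
  refine (abs_min_sub_min_le_max _ _ _ _).trans ?_
  refine (max_le ?_ ?_).trans (le_abs_self _)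
  · have := abs_nonneg (h t - (h 0 + t * h'))
    linarith
  · have := abs_nonneg (f t - (f 0 + t * f'))
    linarith

theorem min_deriv_lt {f h : ℝ → ℝ} {f' h' : ℝ} (hf : HasDerivWithinAt f f' (Ici 0) 0)
    (hh : HasDerivWithinAt h h' (Ici 0) 0) (h0 : f 0 < h 0) :
    HasDerivWithinAt (fun t => min (f t) (h t)) f' (Ici 0) 0 := by
  have h1 : ∀ᶠ t in 𝓝[Ici 0] (0 : ℝ), f t < h t :=
    hf.continuousWithinAt.eventually_lt hh.continuousWithinAt h0
  refine hf.congr_of_eventuallyEq ?_ (min_eq_left h0.le)
  filter_upwards [h1] with t ht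
  exact min_eq_left ht.le

section germs

variable {E : Type} [Fintype E] (g : ∀ i, Gate E i) (W : E → ℝ) (s : ℕ)

/-- the directional derivatives of the gates at `W` -/
noncomputable def dd (i : ℕ) (u : E → ℝ) : ℝ :=
  if i < s then derivWithin (fun t : ℝ => val g (W + t • u) i) (Ici 0) 0 else 0

omit [Fintype E] in
theorem val_zero (u : E → ℝ) (i : ℕ) : val g (W + (0 : ℝ) • u) i = val g W i := by
  rw [zero_smul, add_zero]

open Classical in
/-- minimum gates with a tie -/
noncomputable def tieB (i : ℕ) : Bool := decide (i < s ∧ ∃ a b : Fin i, g i = .min a b ∧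
  val g W a = val g W b)

open Classical in
theorem tieB_iff (i : ℕ) : tieB g W s i = true ↔ (i < s ∧ ∃ a b : Fin i, g i = .min a b ∧
    val g W a = val g W b) := by
  unfold tieB
  exact decide_eq_true_iff

theorem tieB_false {i : ℕ} (h : ¬ (i < s ∧ ∃ a b : Fin i, g i = .min a b ∧
    val g W a = val g W b)) : tieB g W s i = false := by
  rw [← tieB_iff] at h
  simpa using h

theorem uniq : UniqueDiffWithinAt ℝ (Ici (0 : ℝ)) 0 := uniqueDiffOn_Ici 0 0 (by simp)

theorem germs_aux (hleg : ∀ i < s, LegalAt g W i) (i : ℕ) (hi : i < s)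
    (ih : ∀ j < i, ∀ u, HasDerivWithinAt (fun t : ℝ => val g (W + t • u) j) (dd g W s j u)
      (Ici 0) 0) :
    (∀ u, HasDerivWithinAt (fun t : ℝ => val g (W + t • u) i) (dd g W s i u) (Ici 0) 0) ∧
      Rel (dd g W s) i (tieB g W s i) := by
  have hval : ∀ u : E → ℝ, (fun t : ℝ => val g (W + t • u) i) =
      fun t : ℝ => (g i).app (W + t • u) (fun j : Fin i => val g (W + t • u) j) := by
    intro u
    funext t
    rw [val]
  have hdd : ∀ u (c : ℝ), HasDerivWithinAt (fun t : ℝ => val g (W + t • u) i) c (Ici 0) 0 →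
      dd g W s i u = c := by
    intro u c hc
    unfold dd
    rw [if_pos hi]
    exact hc.derivWithin uniq
  have hl := hleg i hi
  cases hg : g i with
  | free F =>
    unfold LegalAt at hl
    rw [hg] at hl
    obtain ⟨hd, hpos⟩ := hl
    have hF := hd.hasFDerivAt
    set F' := fderiv ℝ (fun z : (E → ℝ) × (Fin i → ℝ) => F z.1 z.2) (W, fun j => val g W j)
      with hF'
    have h1 : ∀ u, HasDerivWithinAt (fun t : ℝ => val g (W + t • u) i)
        (F' (u, fun j : Fin i => dd g W s j u)) (Ici 0) 0 := by
      intro u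
      have hγ : HasDerivWithinAt (fun t : ℝ => ((W + t • u, fun j : Fin i => val g (W + t • u) j) :
          (E → ℝ) × (Fin i → ℝ))) (u, fun j : Fin i => dd g W s j u) (Ici 0) 0 := by
        refine HasDerivWithinAt.prodMk ?_ ?_
        · have h2 : HasDerivAt (fun t : ℝ => W + t • u) ((1 : ℝ) • u) 0 :=
            ((hasDerivAt_id (0 : ℝ)).smul_const u).const_add W
          rw [one_smul] at h2
          exact h2.hasDerivWithinAt
        · rw [hasDerivWithinAt_pi]
          intro j
          exact ih j j.2 u
      have hF0 : HasFDerivAt (fun z : (E → ℝ) × (Fin i → ℝ) => F z.1 z.2) F'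
          ((fun t : ℝ => ((W + t • u, fun j : Fin i => val g (W + t • u) j) :
          (E → ℝ) × (Fin i → ℝ))) 0) := by
        have : ((fun t : ℝ => ((W + t • u, fun j : Fin i => val g (W + t • u) j) :
          (E → ℝ) × (Fin i → ℝ))) 0) = (W, fun j : Fin i => val g W j) := by
          simp
        rw [this]
        exact hF
      have h3 := hF0.comp_hasDerivWithinAt (0 : ℝ) hγ
      rw [hval, hg]
      exact h3
    refine ⟨fun u => by rw [hdd u _ (h1 u)]; exact h1 u, ?_⟩
    have htie : tieB g W s i = false := by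
      apply tieB_false
      rintro ⟨-, a, b, h, -⟩
      rw [hg] at h
      cases h
    rw [htie]
    refine Rel.comb ((F' : (E → ℝ) × (Fin i → ℝ) →ₗ[ℝ] ℝ).comp (LinearMap.inl ℝ _ _))
      (fun j => F' (0, Pi.single j 1)) hpos fun u => ?_
    rw [hdd u _ (h1 u)]
    have h4 : ((u, fun j : Fin i => dd g W s j u) : (E → ℝ) × (Fin i → ℝ)) =
        (u, 0) + ∑ j : Fin i, dd g W s j u • ((0, Pi.single j 1) : (E → ℝ) × (Fin i → ℝ)) := by
      refine Prod.ext ?_ ?_
      · simp [Prod.fst_sum]
      · funext k
        simp [Prod.snd_sum, Finset.sum_apply, Pi.single_apply]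
    rw [h4, map_add, map_sum]
    simp only [map_smul, smul_eq_mul]
    congr 1
    refine Finset.sum_congr rfl fun j _ => ?_
    ring
  | min a b =>
    have hval' : ∀ u : E → ℝ, (fun t : ℝ => val g (W + t • u) i) =
      fun t : ℝ => min (val g (W + t • u) a) (val g (W + t • u) b) := by
      intro u
      rw [hval, hg]
      rfl
    have ha := fun u => ih a a.2 u
    have hb := fun u => ih b b.2 u
    rcases lt_trichotomy (val g W a) (val g W b) with hab | hab | hab
    · have h1 : ∀ u, HasDerivWithinAt (fun t : ℝ => val g (W + t • u) i)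
          (dd g W s a u) (Ici 0) 0 := by
        intro u
        rw [hval']
        exact min_deriv_lt (ha u) (hb u) (by rw [val_zero, val_zero]; exact hab)
      refine ⟨fun u => by rw [hdd u _ (h1 u)]; exact h1 u, ?_⟩
      have htie : tieB g W s i = false := by
        apply tieB_false
        rintro ⟨-, a', b', h2, h3⟩
        rw [hg] at h2
        cases h2
        exact hab.ne h3
      rw [htie]
      refine Rel.comb 0 (Pi.single a 1) (fun j => ?_) fun u => ?_
      · by_cases h : j = a
        · subst h
          simp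
        · simp [h]
      · rw [hdd u _ (h1 u)]
        simp [Pi.single_apply]
    · have h1 : ∀ u, HasDerivWithinAt (fun t : ℝ => val g (W + t • u) i)
          (min (dd g W s a u) (dd g W s b u)) (Ici 0) 0 := by
        intro u
        rw [hval']
        exact min_deriv (ha u) (hb u) (by rw [val_zero, val_zero]; exact hab)
      refine ⟨fun u => by rw [hdd u _ (h1 u)]; exact h1 u, ?_⟩
      have htie : tieB g W s i = true := by
        rw [tieB_iff]
        exact ⟨hi, a, b, hg, hab⟩
      rw [htie]
      exact Rel.tie a b a.2 b.2 fun u => hdd u _ (h1 u)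
    · have h1 : ∀ u, HasDerivWithinAt (fun t : ℝ => val g (W + t • u) i)
          (dd g W s b u) (Ici 0) 0 := by
        intro u
        rw [hval']
        simp only [min_comm (val g _ (a : ℕ))]
        exact min_deriv_lt (hb u) (ha u) (by rw [val_zero, val_zero]; exact hab)
      refine ⟨fun u => by rw [hdd u _ (h1 u)]; exact h1 u, ?_⟩
      have htie : tieB g W s i = false := by
        apply tieB_false
        rintro ⟨-, a', b', h2, h3⟩
        rw [hg] at h2
        cases h2
        exact hab.ne' h3
      rw [htie]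
      refine Rel.comb 0 (Pi.single b 1) (fun j => ?_) fun u => ?_
      · by_cases h : j = b
        · subst h
          simp
        · simp [h]
      · rw [hdd u _ (h1 u)]
        simp [Pi.single_apply]

theorem germs (hleg : ∀ i < s, LegalAt g W i) :
    (∀ i < s, ∀ u, HasDerivWithinAt (fun t : ℝ => val g (W + t • u) i) (dd g W s i u)
      (Ici 0) 0) ∧ ∀ i, Rel (dd g W s) i (tieB g W s i) := by
  have h1 : ∀ i < s, ∀ u, HasDerivWithinAt (fun t : ℝ => val g (W + t • u) i) (dd g W s i u)
      (Ici 0) 0 := by
    intro i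
    induction i using Nat.strong_induction_on with
    | _ i ih =>
      intro hi
      exact (germs_aux g W s hleg i hi (fun j hj => ih j hj (hj.trans hi))).1
  refine ⟨h1, fun i => ?_⟩
  by_cases hi : i < s
  · exact (germs_aux g W s hleg i hi (fun j hj => h1 j (hj.trans hi))).2
  · have htie : tieB g W s i = false := by
      exact tieB_false _ _ _ fun h => hi h.1
    rw [htie]
    refine Rel.comb 0 (fun _ => 0) (fun _ => le_rfl) fun u => ?_
    unfold dd
    rw [if_neg hi]
    simp

theorem isMin_of_tie (i : ℕ) (h : tieB g W s i = true) : (g i).isMin = true := by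
  rw [tieB_iff] at h
  obtain ⟨-, a, b, h1, -⟩ := h
  rw [h1]
  rfl

open Classical in
/-- the lower bound, from the directional derivatives of the outputs -/
theorem bound (hleg : ∀ i < s, LegalAt g W i) {O : Type} [Fintype O] (out : O → Fin s)
    (D : O → (E → ℝ) → ℝ)
    (hD : ∀ o u, HasDerivWithinAt (fun t : ℝ => val g (W + t • u) (out o)) (D o u) (Ici 0) 0)
    (hsep : ∀ o o', o ≠ o' → ∀ u : E → ℝ, ∃ v v' : E → ℝ, u = v + v' ∧
      D o v + D o (-v) = 0 ∧ D o' v' + D o' (-v') = 0)
    (r : ℕ) (T : O → Submodule ℝ (E → ℝ)) (hTr : ∀ o, r ≤ Module.finrank ℝ (T o))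
    (hT : ∀ o, ∀ u ∈ T o, D o u + D o (-u) = 0 → u = 0) :
    Fintype.card O * r ≤ ((range s).filter fun i => (g i).isMin = true).card := by
  obtain ⟨h1, h2⟩ := germs g W s hleg
  have h3 : ∀ o u, dd g W s (out o) u = D o u := by
    intro o u
    exact uniq.eq_deriv _ (h1 (out o) (out o).2 u) (hD o u)
  refine (core (dd g W s) (tieB g W s) h2 s (fun o => (out o : ℕ)) (fun o => (out o).2)
    ?_ r T hTr ?_).trans ?_
  · intro o o' hne u
    obtain ⟨v, v', h4, h5, h6⟩ := hsep o o' hne u
    refine ⟨v, v', h4, ?_, ?_⟩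
    · rw [h3, h3]
      exact h5
    · rw [h3, h3]
      exact h6
  · intro o u hu h
    rw [h3, h3] at h
    exact hT o u hu h
  · apply Finset.card_le_card
    intro i hi
    rw [Finset.mem_filter] at hi ⊢
    exact ⟨hi.1, isMin_of_tie g W s i hi.2⟩

end germs

end Pool.Agent.K4H91.MG
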