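import Mathlib

/-!
# Counting minimum gates: the linear algebra

The directional derivatives of the gates are superlinear functions. A superlinear function `G` is
linear on the space `lin G` of the vectors `u` with `G u + G (- u) = 0`.
-/

set_option autoImplicit false

namespace Pool.Agent.K4H91.MG

open Finset Module

variable {V : Type} [AddCommGroup V] [Module ℝ V]

/-- superadditive and positively homogeneous -/
structure SL (G : V → ℝ) : Prop where
  add : ∀ u v, G u + G v ≤ G (u + v)
  smul : ∀ (t : ℝ) (u : V), 0 ≤ t → G (t • u) = t * G u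

theorem SL.zero {G : V → ℝ} (h : SL G) : G 0 = 0 := by
  have := h.smul 0 0 le_rfl
  simpa using this

theorem SL.neg_le {G : V → ℝ} (h : SL G) (u : V) : G u + G (-u) ≤ 0 := by
  have := h.add u (-u)
  rw [add_neg_cancel, h.zero] at this
  exact this

theorem SL.add_of_lin {G : V → ℝ} (h : SL G) {u v : V} (hu : G u + G (-u) = 0)
    (hv : G v + G (-v) = 0) : G (u + v) = G u + G v ∧ G (-(u + v)) = -(G u + G v) := by
  have h1 := h.add u v
  have h2 := h.add (-u) (-v)
  have h3 := h.neg_le (u + v)
  have h4 : -(u + v) = -u + -v := by abel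
  rw [h4] at h3 ⊢
  constructor <;> linarith

/-- the space where a superlinear function is linear -/
def lin (G : V → ℝ) (h : SL G) : Submodule ℝ V where
  carrier := {u | G u + G (-u) = 0}
  zero_mem' := by
    show G 0 + G (-0) = 0
    rw [neg_zero, h.zero, add_zero]
  add_mem' := by
    intro u v hu hv
    obtain ⟨h1, h2⟩ := h.add_of_lin hu hv
    show G (u + v) + G (-(u + v)) = 0
    rw [h1, h2]
    ring
  smul_mem' := by
    intro c u hu
    have hu' : G u + G (-u) = 0 := hu
    show G (c • u) + G (-(c • u)) = 0
    rcases le_total 0 c with hc | hc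
    · rw [h.smul c u hc, ← smul_neg, h.smul c (-u) hc, ← mul_add, hu', mul_zero]
    · have h1 : c • u = (-c) • (-u) := by simp
      have h2 : -(c • u) = (-c) • u := by simp
      rw [h2, h1, h.smul (-c) (-u) (by linarith), h.smul (-c) u (by linarith), ← mul_add,
        add_comm, hu', mul_zero]

theorem mem_lin {G : V → ℝ} (h : SL G) {u : V} : u ∈ lin G h ↔ G u + G (-u) = 0 := Iff.rfl

theorem lin_neg {G : V → ℝ} (h : SL G) {u : V} (hu : u ∈ lin G h) : G (-u) = - G u := by
  have : G u + G (-u) = 0 := hu
  linarith

theorem lin_smul {G : V → ℝ} (h : SL G) {u : V} (hu : u ∈ lin G h) (c : ℝ) :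
    G (c • u) = c * G u := by
  rcases le_total 0 c with hc | hc
  · exact h.smul c u hc
  · have h1 : c • u = (-c) • (-u) := by simp
    rw [h1, h.smul (-c) (-u) (by linarith), lin_neg h hu]
    ring

/-- the linear function on `lin G` -/
def linMap (G : V → ℝ) (h : SL G) : lin G h →ₗ[ℝ] ℝ where
  toFun u := G u
  map_add' u v := (h.add_of_lin u.2 v.2).1
  map_smul' c u := by
    simp only [Submodule.coe_smul, RingHom.id_apply, smul_eq_mul]
    exact lin_smul h u.2 c

/-- how the directional derivative of gate `i` depends on those of the gates before: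
`true`: minimum gate with a tie -/
inductive Rel (G : ℕ → V → ℝ) (i : ℕ) : Bool → Prop
  | comb (L : V →ₗ[ℝ] ℝ) (c : Fin i → ℝ) (hc : ∀ j, 0 ≤ c j)
      (h : ∀ u, G i u = L u + ∑ j, c j * G j u) : Rel G i false
  | tie (a b : ℕ) (ha : a < i) (hb : b < i) (h : ∀ u, G i u = min (G a u) (G b u)) : Rel G i true

theorem sl_of_rel (G : ℕ → V → ℝ) (k : ℕ → Bool) (h : ∀ i, Rel G i (k i)) : ∀ i, SL (G i) := by
  intro i
  induction i using Nat.strong_induction_on with
  | _ i ih =>
    generalize hk : k i = b at *
    have hi := h i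
    rw [hk] at hi
    cases hi with
    | comb L c hc hG =>
      constructor
      · intro u v
        rw [hG, hG, hG, map_add]
        have h1 : ∑ j, c j * G j u + ∑ j, c j * G j v ≤ ∑ j : Fin i, c j * G j (u + v) := by
          rw [← Finset.sum_add_distrib]
          refine Finset.sum_le_sum fun j _ => ?_
          rw [← mul_add]
          exact mul_le_mul_of_nonneg_left ((ih j j.2).add u v) (hc j)
        linarith
      · intro t u ht
        rw [hG, hG, map_smul, smul_eq_mul, mul_add, Finset.mul_sum]
        congr 1
        refine Finset.sum_congr rfl fun j _ => ?_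
        rw [(ih j j.2).smul t u ht]
        ring
    | tie a b ha hb hG =>
      constructor
      · intro u v
        rw [hG, hG, hG]
        refine le_min ?_ ?_
        · exact (add_le_add (min_le_left _ _) (min_le_left _ _)).trans ((ih a ha).add u v)
        · exact (add_le_add (min_le_right _ _) (min_le_right _ _)).trans ((ih b hb).add u v)
      · intro t u ht
        rw [hG, hG, (ih a ha).smul t u ht, (ih b hb).smul t u ht, mul_min_of_nonneg _ _ ht]

/-- the linear space of a combination is contained in those of its terms -/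
theorem lin_comb {G : ℕ → V → ℝ} (hSL : ∀ i, SL (G i)) {i : ℕ} (L : V →ₗ[ℝ] ℝ) (c : Fin i → ℝ)
    (hc : ∀ j, 0 ≤ c j) (h : ∀ u, G i u = L u + ∑ j, c j * G j u) (u : V) :
    u ∈ lin (G i) (hSL i) ↔ ∀ j : Fin i, c j = 0 ∨ u ∈ lin (G j) (hSL j) := by
  rw [mem_lin, h, h, map_neg]
  have h1 : L u + ∑ j, c j * G j u + (-L u + ∑ j, c j * G j (-u)) =
      ∑ j : Fin i, c j * (G j u + G j (-u)) := by
    simp only [mul_add, Finset.sum_add_distrib]
    ring
  rw [h1, Finset.sum_eq_zero_iff_of_nonpos]
  · simp only [mem_univ, true_imp_iff, mul_eq_zero]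
    rfl
  · intro j _
    exact mul_nonpos_of_nonneg_of_nonpos (hc j) ((hSL j).neg_le u)

theorem lin_tie {G : ℕ → V → ℝ} (hSL : ∀ i, SL (G i)) {i a b : ℕ}
    (h : ∀ u, G i u = min (G a u) (G b u)) (u : V) (hu : u ∈ lin (G i) (hSL i)) :
    u ∈ lin (G a) (hSL a) ∧ u ∈ lin (G b) (hSL b) := by
  rw [mem_lin, h, h] at hu
  have h1 := (hSL a).neg_le u
  have h2 := (hSL b).neg_le u
  constructor
  · rw [mem_lin]
    have := min_le_left (G a u) (G b u)
    have := min_le_left (G a (-u)) (G b (-u))
    linarith
  · rw [mem_lin]
    have := min_le_right (G a u) (G b u)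
    have := min_le_right (G a (-u)) (G b (-u))
    linarith

/-- one output needs many nonlinear minimum gates in its cone -/
theorem one_output [FiniteDimensional ℝ V] (G : ℕ → V → ℝ) (k : ℕ → Bool)
    (h : ∀ i, Rel G i (k i)) (hSL : ∀ i, SL (G i)) (o : ℕ) (T : Submodule ℝ V)
    (hT : T ⊓ lin (G o) (hSL o) = ⊥) [DecidablePred fun i => k i = true ∧
      lin (G o) (hSL o) ≤ lin (G i) (hSL i) ∧ lin (G i) (hSL i) ≠ ⊤] :
    finrank ℝ T ≤ ((range (o + 1)).filter fun i => k i = true ∧
      lin (G o) (hSL o) ≤ lin (G i) (hSL i) ∧ lin (G i) (hSL i) ≠ ⊤).card := by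
  have key : ∀ t : ℕ, ∃ S : Submodule ℝ V, S ≤ T ∧ finrank ℝ T ≤ finrank ℝ S +
      ((range t).filter fun i => k i = true ∧
        lin (G o) (hSL o) ≤ lin (G i) (hSL i) ∧ lin (G i) (hSL i) ≠ ⊤).card ∧
      ∀ i < t, lin (G o) (hSL o) ≤ lin (G i) (hSL i) → S ≤ lin (G i) (hSL i) := by
    intro t
    induction t with
    | zero => exact ⟨T, le_rfl, by simp, fun i hi => absurd hi (Nat.not_lt_zero i)⟩
    | succ t ih =>
      obtain ⟨S, hST, hS, hlin⟩ := ih
      by_cases hto : lin (G o) (hSL o) ≤ lin (G t) (hSL t)
      swap
      · refine ⟨S, hST, ?_, ?_⟩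
        · rw [range_add_one, filter_insert, if_neg (fun h => hto h.2.1)]
          exact hS
        · intro i hi hio
          rcases Nat.lt_succ_iff_lt_or_eq.1 hi with hi | rfl
          · exact hlin i hi hio
          · exact absurd hio hto
      by_cases htop : lin (G t) (hSL t) = ⊤
      · refine ⟨S, hST, ?_, ?_⟩
        · rw [range_add_one, filter_insert, if_neg (fun h => h.2.2 htop)]
          exact hS
        · intro i hi hio
          rcases Nat.lt_succ_iff_lt_or_eq.1 hi with hi | rfl
          · exact hlin i hi hio
          · rw [htop]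
            exact le_top
      have ht := h t
      generalize hk : k t = b at ht
      cases ht with
      | comb L c hc hG =>
        refine ⟨S, hST, ?_, ?_⟩
        · rw [range_add_one, filter_insert, if_neg (fun h => by rw [hk] at h; simp at h)]
          exact hS
        · intro i hi hio
          rcases Nat.lt_succ_iff_lt_or_eq.1 hi with hi | rfl
          · exact hlin i hi hio
          · intro u hu
            rw [lin_comb hSL L c hc hG]
            intro j
            by_cases hj : c j = 0
            · exact Or.inl hj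
            · right
              refine hlin j j.2 ?_ hu
              intro v hv
              have := (lin_comb hSL L c hc hG v).1 (hto hv) j
              exact this.resolve_left hj
      | tie a b ha hb hG =>
        have hoa : lin (G o) (hSL o) ≤ lin (G a) (hSL a) := fun v hv =>
          (lin_tie hSL hG v (hto hv)).1
        have hob : lin (G o) (hSL o) ≤ lin (G b) (hSL b) := fun v hv =>
          (lin_tie hSL hG v (hto hv)).2
        have hSa := hlin a ha hoa
        have hSb := hlin b hb hob
        -- the linear function on `S`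
        let f : S →ₗ[ℝ] ℝ := (linMap (G a) (hSL a)).comp (Submodule.inclusion hSa) -
          (linMap (G b) (hSL b)).comp (Submodule.inclusion hSb)
        let S' : Submodule ℝ V := (LinearMap.ker f).map S.subtype
        have hS'S : S' ≤ S := by
          rintro _ ⟨x, _, rfl⟩
          exact x.2
        have hfin : finrank ℝ S ≤ finrank ℝ S' + 1 := by
          have h1 : finrank ℝ S' = finrank ℝ (LinearMap.ker f) :=
            LinearEquiv.finrank_eq (Submodule.equivMapOfInjective S.subtype
              (Submodule.subtype_injective S) (LinearMap.ker f)).symm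
          have h2 := LinearMap.finrank_range_add_finrank_ker f
          have h3 : finrank ℝ (LinearMap.range f) ≤ 1 := by
            calc finrank ℝ (LinearMap.range f) ≤ finrank ℝ ℝ := Submodule.finrank_le _
              _ = 1 := Module.finrank_self ℝ
          omega
        refine ⟨S', hS'S.trans hST, ?_, ?_⟩
        · rw [range_add_one, filter_insert, if_pos ⟨hk, hto, htop⟩, card_insert_of_notMem]
          · omega
          · simp
        · intro i hi hio
          rcases Nat.lt_succ_iff_lt_or_eq.1 hi with hi | rfl
          · exact hS'S.trans (hlin i hi hio)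
          · rintro _ ⟨x, hx, rfl⟩
            have hx0 : G a (x : V) - G b (x : V) = 0 := hx
            have hxa : (x : V) ∈ lin (G a) (hSL a) := hSa x.2
            have hxb : (x : V) ∈ lin (G b) (hSL b) := hSb x.2
            rw [mem_lin]
            show G i (x : V) + G i (-(x : V)) = 0
            rw [hG, hG, lin_neg _ hxa, lin_neg _ hxb, show G a (x : V) = G b (x : V) by linarith,
              min_self, min_self]
            ring
  obtain ⟨S, hST, hS, hlin⟩ := key (o + 1)
  have h0 : S = ⊥ := by
    rw [eq_bot_iff, ← hT]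
    exact le_inf hST (hlin o (Nat.lt_succ_self o) le_rfl)
  rw [h0, finrank_bot, zero_add] at hS
  exact hS

open Classical in
/-- the lower bound for the number of minimum gates -/
theorem core [FiniteDimensional ℝ V] (G : ℕ → V → ℝ) (k : ℕ → Bool) (h : ∀ i, Rel G i (k i))
    {O : Type} [Fintype O] (s : ℕ) (out : O → ℕ) (hout : ∀ o, out o < s)
    (hsep : ∀ o o', o ≠ o' → ∀ u : V, ∃ v v' : V, u = v + v' ∧
      G (out o) v + G (out o) (-v) = 0 ∧ G (out o') v' + G (out o') (-v') = 0)
    (r : ℕ) (T : O → Submodule ℝ V) (hTr : ∀ o, r ≤ finrank ℝ (T o))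
    (hT : ∀ o, ∀ u ∈ T o, G (out o) u + G (out o) (-u) = 0 → u = 0) :
    Fintype.card O * r ≤ ((range s).filter fun i => k i = true).card := by
  have hSL := sl_of_rel G k h
  let M : O → Finset ℕ := fun o => (range (out o + 1)).filter fun i => k i = true ∧
      lin (G (out o)) (hSL (out o)) ≤ lin (G i) (hSL i) ∧ lin (G i) (hSL i) ≠ ⊤
  have h1 : ∀ o, r ≤ (M o).card := by
    intro o
    refine (hTr o).trans (one_output G k h hSL (out o) (T o) ?_)
    rw [eq_bot_iff]
    rintro u ⟨hu1, hu2⟩
    rw [Submodule.mem_bot]
    exact hT o u hu1 hu2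
  have h2 : ∀ o o', o ≠ o' → Disjoint (M o) (M o') := by
    intro o o' hne
    rw [Finset.disjoint_left]
    intro i hi hi'
    simp only [M, mem_filter] at hi hi'
    apply hi.2.2.2
    rw [eq_top_iff]
    intro u _
    obtain ⟨v, v', rfl, hv, hv'⟩ := hsep o o' hne u
    exact Submodule.add_mem _ (hi.2.2.1 hv) (hi'.2.2.1 hv')
  calc Fintype.card O * r = ∑ _o : O, r := by simp
    _ ≤ ∑ o, (M o).card := Finset.sum_le_sum fun o _ => h1 o
    _ = (univ.biUnion M).card := (Finset.card_biUnion fun o _ o' _ hne => h2 o o' hne).symm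
    _ ≤ _ := by
      apply Finset.card_le_card
      intro i hi
      simp only [mem_biUnion, mem_univ, true_and, M, mem_filter, mem_range] at hi ⊢
      obtain ⟨o, h3, h4, -⟩ := hi
      have := hout o
      exact ⟨by omega, h4⟩

end Pool.Agent.K4H91.MG
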