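import Pool.Agent.K4H91.MG.Main

/-!
# Distances, and the upper bound for the min-plus product
-/

set_option autoImplicit false

namespace Pool.Agent.K4H91.MG

open Finset Filter Topology

/-- the length of a walk, given as the list of its vertices -/
def plen {V : Type} (w : V × V → ℝ) : List V → ℝ
  | [] => 0
  | [_] => 0
  | a :: b :: l => w (a, b) + plen w (b :: l)

/-- the distance from `u` to `v`: the infimum of the lengths of the walks from `u` to `v` -/
noncomputable def walkDist {V : Type} (w : V × V → ℝ) (u v : V) : ℝ :=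
  ⨅ l : List V, plen w (u :: (l ++ [v]))

theorem plen_ge {V : Type} (w : V × V → ℝ) (c : ℝ) (hc : 0 ≤ c) (hw : ∀ e, c ≤ w e) (l : List V) :
    ∀ a b : V, c ≤ plen w (a :: (l ++ [b])) := by
  induction l with
  | nil =>
    intro a b
    simp only [List.nil_append, plen, add_zero]
    exact hw _
  | cons z l ih =>
    intro a b
    simp only [List.cons_append, plen]
    have := ih z b
    have := hw (a, z)
    linarith

/-- the edges between the three classes -/
def epsV {V : Type} {r a b : ℕ} (η : Fin a ⊕ (Fin (r + 1) ⊕ Fin b) ↪ V) :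
    (Fin a × Fin (r + 1)) ⊕ (Fin (r + 1) × Fin b) ↪ V × V where
  toFun := Sum.elim (fun x => (η (Sum.inl x.1), η (Sum.inr (Sum.inl x.2))))
    (fun x => (η (Sum.inr (Sum.inl x.1)), η (Sum.inr (Sum.inr x.2))))
  inj' := by
    rintro (⟨i, k⟩ | ⟨k, j⟩) (⟨i', k'⟩ | ⟨k', j'⟩) h
    · simpa using h
    · simp at h
    · simp at h
    · simpa using h

theorem walkDist_eq {V : Type} {r a b : ℕ} (η : Fin a ⊕ (Fin (r + 1) ⊕ Fin b) ↪ V) (w : V × V → ℝ)
    (h1 : ∀ x, 9 / 10 < w (epsV η x)) (h2 : ∀ x, w (epsV η x) < 11 / 10)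
    (h3 : ∀ e, e ∉ Set.range (epsV η) → 9 < w e) (i : Fin a) (j : Fin b) :
    walkDist w (η (Sum.inl i)) (η (Sum.inr (Sum.inr j))) = mp (epsV η) w i j := by
  have hw : ∀ e, 9 / 10 ≤ w e := by
    intro e
    by_cases he : e ∈ Set.range (epsV η)
    · obtain ⟨x, rfl⟩ := he
      exact (h1 x).le
    · have := h3 e he
      linarith
  have hmp : mp (epsV η) w i j ≤ 22 / 10 := by
    have e1 := mp_le (epsV η) w i j 0
    have e2 := h2 (Sum.inl (i, 0))
    have e3 := h2 (Sum.inr (0, j))
    linarith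
  unfold walkDist
  apply le_antisymm
  · obtain ⟨k, -, hk⟩ := Finset.exists_mem_eq_inf' (univ_nonempty (α := Fin (r + 1)))
      (fun k => w (epsV η (Sum.inl (i, k))) + w (epsV η (Sum.inr (k, j))))
    unfold mp
    rw [hk]
    refine (ciInf_le ?_ [η (Sum.inr (Sum.inl k))]).trans ?_
    · refine ⟨9 / 10, ?_⟩
      rintro _ ⟨l, rfl⟩
      exact plen_ge w (9 / 10) (by norm_num) hw l _ _
    · simp [plen, epsV]
  · refine le_ciInf fun l => ?_
    rcases l with _ | ⟨z, _ | ⟨z', l⟩⟩
    · simp only [List.nil_append, plen, add_zero]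
      have := h3 (η (Sum.inl i), η (Sum.inr (Sum.inr j))) (by
        rintro ⟨x | x, hx⟩
        · simp [epsV] at hx
        · simp [epsV] at hx)
      linarith
    · simp only [List.cons_append, List.nil_append, plen, add_zero]
      by_cases hz : ∃ k, z = η (Sum.inr (Sum.inl k))
      · obtain ⟨k, rfl⟩ := hz
        exact mp_le (epsV η) w i j k
      · have e1 := h3 (η (Sum.inl i), z) (by
          rintro ⟨x | x, hx⟩
          · simp only [epsV, Function.Embedding.coeFn_mk, Sum.elim_inl, Prod.mk.injEq] at hx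
            exact hz ⟨_, hx.2.symm⟩
          · simp [epsV] at hx)
        have e2 := hw (z, η (Sum.inr (Sum.inr j)))
        linarith
    · simp only [List.cons_append, plen]
      have e1 := hw (η (Sum.inl i), z)
      have e2 := hw (z, z')
      have e3 := plen_ge w (9 / 10) (by norm_num) hw l z' (η (Sum.inr (Sum.inr j)))
      linarith

open Classical in
theorem apsp {r s N : ℕ} (hN : 3 * (r + 1) ≤ N) (g : ∀ i, Gate (Fin N × Fin N) i)
    (hleg : ∀ x : Fin N × Fin N → ℝ, (∀ e, 0 < x e) → ∀ i < s, LegalAt g x i)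
    (out : Fin N → Fin N → Fin s)
    (hout : ∀ x : Fin N × Fin N → ℝ, (∀ e, 0 < x e) → ∀ u v, u ≠ v →
      val g x (out u v) = walkDist x u v) :
    (r + 1) * (r + 1) * r ≤ ((range s).filter fun i => (g i).isMin = true).card := by
  obtain ⟨η⟩ : Nonempty (Fin (r + 1) ⊕ (Fin (r + 1) ⊕ Fin (r + 1)) ↪ Fin N) := by
    apply Function.Embedding.nonempty_of_card_le
    simp only [Fintype.card_sum, Fintype.card_fin]
    omega
  let W : Fin N × Fin N → ℝ := fun e => if e ∈ Set.range (epsV η) then 1 else 10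
  have hW : ∀ a, W (epsV η a) = 1 := fun a => if_pos ⟨a, rfl⟩
  have hWpos : ∀ e, 0 < W e := by
    intro e
    simp only [W]
    split_ifs <;> norm_num
  have := mp_bound (epsV η) g W s hW (hleg W hWpos)
    (fun o => out (η (Sum.inl o.1)) (η (Sum.inr (Sum.inr o.2)))) ?_
  · simpa using this
  · intro o u
    have h1 : ∀ e, ∀ᶠ t in 𝓝[Set.Ici 0] (0 : ℝ), |t * u e| < 1 / 10 := by
      intro e
      have h2 : ContinuousAt (fun t : ℝ => |t * u e|) 0 := by fun_prop
      have h3 : |(0 : ℝ) * u e| < 1 / 10 := by simp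
      exact (h2.eventually_lt continuousAt_const h3).filter_mono nhdsWithin_le_nhds
    filter_upwards [Filter.eventually_all.2 h1] with t ht
    have hx : ∀ e, W e - 1 / 10 < (W + t • u) e ∧ (W + t • u) e < W e + 1 / 10 := by
      intro e
      have := abs_lt.1 (ht e)
      simp only [Pi.add_apply, Pi.smul_apply, smul_eq_mul]
      constructor <;> linarith
    have hW9 : ∀ e, 1 ≤ W e := by
      intro e
      simp only [W]
      split_ifs <;> norm_num
    rw [hout (W + t • u) (fun e => by have := (hx e).1; have := hW9 e; linarith) _ _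
      (by simp)]
    refine walkDist_eq η (W + t • u) ?_ ?_ ?_ o.1 o.2
    · intro x
      have := (hx (epsV η x)).1
      rw [hW] at this
      linarith
    · intro x
      have := (hx (epsV η x)).2
      rw [hW] at this
      linarith
    · intro e he
      have h2 := (hx e).1
      have h3 : W e = 10 := if_neg he
      rw [h3] at h2
      linarith

/-- the inputs of a min-plus product -/
abbrev Ent (a m b : ℕ) : Type := (Fin a × Fin m) ⊕ (Fin m × Fin b)

theorem minplus_lower {a r b s : ℕ} (g : ∀ i, Gate (Ent a (r + 1) b) i)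
    (hleg : ∀ x : Ent a (r + 1) b → ℝ, (∀ e, 0 < x e) → ∀ i < s, LegalAt g x i)
    (out : Fin a → Fin b → Fin s)
    (hout : ∀ x : Ent a (r + 1) b → ℝ, (∀ e, 0 < x e) → ∀ i j,
      val g x (out i j) = ⨅ k, (x (Sum.inl (i, k)) + x (Sum.inr (k, j)))) :
    a * b * r ≤ ((range s).filter fun i => (g i).isMin = true).card := by
  have := mp_bound (Function.Embedding.refl (Ent a (r + 1) b)) g (fun _ => 1) s (fun _ => rfl)
    (hleg _ (fun _ => one_pos)) (fun o => out o.1 o.2) ?_
  · simpa using this
  · intro o u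
    have h1 : ∀ e, ∀ᶠ t in 𝓝[Set.Ici 0] (0 : ℝ), |t * u e| < 1 / 10 := by
      intro e
      have h2 : ContinuousAt (fun t : ℝ => |t * u e|) 0 := by fun_prop
      have h3 : |(0 : ℝ) * u e| < 1 / 10 := by simp
      exact (h2.eventually_lt continuousAt_const h3).filter_mono nhdsWithin_le_nhds
    filter_upwards [Filter.eventually_all.2 h1] with t ht
    rw [hout]
    · unfold mp
      rw [Finset.inf'_univ_eq_ciInf]
      rfl
    · intro e
      have := abs_lt.1 (ht e)
      simp only [Pi.add_apply, Pi.smul_apply, smul_eq_mul]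
      linarith

section upper

variable {E : Type} [Fintype E]

theorem val_update (g : ∀ i, Gate E i) (s : ℕ) (G : Gate E s) (x : E → ℝ) :
    ∀ i < s, val (Function.update g s G) x i = val g x i := by
  intro i
  induction i using Nat.strong_induction_on with
  | _ i ih =>
    intro hi
    rw [val, val, Function.update_of_ne hi.ne]
    congr 1
    funext j
    exact ih j j.2 (j.2.trans hi)

theorem val_update_self (g : ∀ i, Gate E i) (s : ℕ) (G : Gate E s) (x : E → ℝ) :
    val (Function.update g s G) x s = G.app x (fun j => val g x j) := by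
  rw [val, Function.update_self]
  congr 1
  funext j
  exact val_update g s G x j j.2

theorem legal_update (g : ∀ i, Gate E i) (s : ℕ) (G : Gate E s) (x : E → ℝ) (i : ℕ) (hi : i < s)
    (h : LegalAt g x i) : LegalAt (Function.update g s G) x i := by
  have h1 : (fun j : Fin i => val (Function.update g s G) x j) = fun j : Fin i => val g x j := by
    funext j
    exact val_update g s G x j (j.2.trans hi)
  unfold LegalAt at *
  rw [Function.update_of_ne hi.ne, h1]
  exact h

/-- there is a program with `c` minimum gates among the first `s` gates which computes the functions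
in `L` -/
def Comp (s c : ℕ) (L : Set ((E → ℝ) → ℝ)) : Prop :=
  ∃ g : ∀ i, Gate E i, (∀ x : E → ℝ, ∀ i < s, LegalAt g x i) ∧
    ((range s).filter fun i => (g i).isMin = true).card = c ∧
    ∀ f ∈ L, ∃ i < s, ∀ x, val g x i = f x

theorem comp_nil : Comp (E := E) 0 0 ∅ :=
  ⟨fun i => .free fun _ _ => 0, fun _ i hi => absurd hi (Nat.not_lt_zero i), by simp, by simp⟩

theorem comp_add {s c : ℕ} {L : Set ((E → ℝ) → ℝ)} (h : Comp s c L) (e e' : E) :
    Comp (s + 1) c (insert (fun x => x e + x e') L) := by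
  obtain ⟨g, h1, h2, h3⟩ := h
  refine ⟨Function.update g s (.free fun x _ => x e + x e'), ?_, ?_, ?_⟩
  · intro x i hi
    rcases Nat.lt_succ_iff_lt_or_eq.1 hi with hi | rfl
    · exact legal_update g s _ x i hi (h1 x i hi)
    · unfold LegalAt
      rw [Function.update_self]
      let A : (E → ℝ) →L[ℝ] ℝ := ContinuousLinearMap.proj (R := ℝ) (φ := fun _ : E => ℝ) e +
        ContinuousLinearMap.proj (R := ℝ) (φ := fun _ : E => ℝ) e'
      have hd : ∀ z0 : (E → ℝ) × (Fin i → ℝ), HasFDerivAt
          (fun z : (E → ℝ) × (Fin i → ℝ) => z.1 e + z.1 e')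
          (A.comp (ContinuousLinearMap.fst ℝ _ _)) z0 := by
        intro z0
        exact (A.comp (ContinuousLinearMap.fst ℝ (E → ℝ) (Fin i → ℝ))).hasFDerivAt
      refine ⟨(hd _).differentiableAt, fun j => ?_⟩
      rw [(hd _).fderiv]
      simp
  · rw [range_add_one, filter_insert, Function.update_self,
      if_neg (by show ¬ (false = true); simp), ← h2]
    congr 1
    apply Finset.filter_congr
    intro i hi
    rw [Function.update_of_ne (mem_range.1 hi).ne]
  · intro f hf
    rcases hf with rfl | hf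
    · exact ⟨s, Nat.lt_succ_self s, fun x => by rw [val_update_self]; rfl⟩
    · obtain ⟨i, hi, h4⟩ := h3 f hf
      exact ⟨i, hi.trans (Nat.lt_succ_self s), fun x => by rw [val_update g s _ x i hi, h4]⟩

theorem comp_min {s c : ℕ} {L : Set ((E → ℝ) → ℝ)} (h : Comp s c L) {p q : (E → ℝ) → ℝ}
    (hp : p ∈ L) (hq : q ∈ L) : Comp (s + 1) (c + 1) (insert (fun x => min (p x) (q x)) L) := by
  obtain ⟨g, h1, h2, h3⟩ := h
  obtain ⟨a, ha, hap⟩ := h3 p hp
  obtain ⟨b, hb, hbq⟩ := h3 q hq
  refine ⟨Function.update g s (.min ⟨a, ha⟩ ⟨b, hb⟩), ?_, ?_, ?_⟩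
  · intro x i hi
    rcases Nat.lt_succ_iff_lt_or_eq.1 hi with hi | rfl
    · exact legal_update g s _ x i hi (h1 x i hi)
    · unfold LegalAt
      rw [Function.update_self]
      trivial
  · rw [range_add_one, filter_insert, Function.update_self,
      if_pos (show (Gate.min (E := E) ⟨a, ha⟩ ⟨b, hb⟩).isMin = true from rfl),
      card_insert_of_notMem (by simp), ← h2]
    congr 2
    apply Finset.filter_congr
    intro i hi
    rw [Function.update_of_ne (mem_range.1 hi).ne]
  · intro f hf
    rcases hf with rfl | hf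
    · exact ⟨s, Nat.lt_succ_self s, fun x => by
        rw [val_update_self]
        show min (val g x a) (val g x b) = _
        rw [hap, hbq]⟩
    · obtain ⟨i, hi, h4⟩ := h3 f hf
      exact ⟨i, hi.trans (Nat.lt_succ_self s), fun x => by rw [val_update g s _ x i hi, h4]⟩

/-- the sum for the index `l` -/
def tm {a r b : ℕ} (i : Fin a) (j : Fin b) (l : ℕ) (x : Ent a (r + 1) b → ℝ) : ℝ :=
  x (Sum.inl (i, Fin.ofNat (r + 1) l)) + x (Sum.inr (Fin.ofNat (r + 1) l, j))

/-- minimum over the first indices -/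
noncomputable def pm {a r b : ℕ} (i : Fin a) (j : Fin b) : ℕ → (Ent a (r + 1) b → ℝ) → ℝ
  | 0 => tm i j 0
  | k + 1 => fun x => min (pm i j k x) (tm i j (k + 1) x)

theorem pm_le {a r b : ℕ} (i : Fin a) (j : Fin b) (x : Ent a (r + 1) b → ℝ) (k l : ℕ)
    (hl : l ≤ k) : pm i j k x ≤ tm i j l x := by
  induction k with
  | zero =>
    obtain rfl : l = 0 := by omega
    exact le_rfl
  | succ k ih =>
    rcases Nat.lt_or_ge l (k + 1) with h | h
    · exact (min_le_left _ _).trans (ih (by omega))
    · obtain rfl : l = k + 1 := by omega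
      exact min_le_right _ _

theorem le_pm {a r b : ℕ} (i : Fin a) (j : Fin b) (x : Ent a (r + 1) b → ℝ) (c : ℝ)
    (h : ∀ l, c ≤ tm i j l x) (k : ℕ) : c ≤ pm i j k x := by
  induction k with
  | zero => exact h 0
  | succ k ih => exact le_min ih (h _)

theorem pm_eq {a r b : ℕ} (i : Fin a) (j : Fin b) (x : Ent a (r + 1) b → ℝ) :
    pm i j r x = ⨅ k, (x (Sum.inl (i, k)) + x (Sum.inr (k, j))) := by
  apply le_antisymm
  · refine le_ciInf fun k => ?_
    have := pm_le i j x r k (by omega)
    unfold tm at this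
    rw [Fin.ofNat_eq_cast, Fin.cast_val_eq_self] at this
    exact this
  · apply le_pm
    intro l
    exact ciInf_le (Set.finite_range _).bddBelow (Fin.ofNat (r + 1) l)

theorem comp_out {a r b : ℕ} (i : Fin a) (j : Fin b) {s c : ℕ}
    {L : Set ((Ent a (r + 1) b → ℝ) → ℝ)} (h : Comp s c L) (k : ℕ) :
    ∃ (s' : ℕ) (L' : Set ((Ent a (r + 1) b → ℝ) → ℝ)), Comp s' (c + k) L' ∧ L ⊆ L' ∧
      pm i j k ∈ L' := by
  induction k with
  | zero => exact ⟨s + 1, _, comp_add h _ _, Set.subset_insert _ _, Set.mem_insert _ _⟩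
  | succ k ih =>
    obtain ⟨s', L', h1, h2, h3⟩ := ih
    have h4 := comp_add h1 (Sum.inl (i, Fin.ofNat (r + 1) (k + 1)))
      (Sum.inr (Fin.ofNat (r + 1) (k + 1), j))
    exact ⟨_, _, comp_min h4 (Set.mem_insert_of_mem _ h3) (Set.mem_insert _ _),
      h2.trans ((Set.subset_insert _ _).trans (Set.subset_insert _ _)), Set.mem_insert _ _⟩

theorem minplus_upper (a r b : ℕ) : ∃ (s : ℕ) (g : ∀ i, Gate (Ent a (r + 1) b) i)
    (out : Fin a → Fin b → Fin s), (∀ x : Ent a (r + 1) b → ℝ, ∀ i < s, LegalAt g x i) ∧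
    (∀ (x : Ent a (r + 1) b → ℝ) i j,
      val g x (out i j) = ⨅ k, (x (Sum.inl (i, k)) + x (Sum.inr (k, j)))) ∧
    ((range s).filter fun i => (g i).isMin = true).card = a * b * r := by
  classical
  have h1 : ∀ T : Finset (Fin a × Fin b), ∃ (s : ℕ) (L : Set ((Ent a (r + 1) b → ℝ) → ℝ)),
      Comp s (T.card * r) L ∧ ∀ o ∈ T, pm o.1 o.2 r ∈ L := by
    intro T
    induction T using Finset.induction_on with
    | empty => exact ⟨0, ∅, by simpa using comp_nil, by simp⟩
    | insert o T ho ih =>
      obtain ⟨s, L, h2, h3⟩ := ih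
      obtain ⟨s', L', h4, h5, h6⟩ := comp_out o.1 o.2 h2 r
      refine ⟨s', L', ?_, ?_⟩
      · rw [card_insert_of_notMem ho, add_mul, one_mul]
        exact h4
      · intro o' ho'
        rcases Finset.mem_insert.1 ho' with rfl | ho'
        · exact h6
        · exact h5 (h3 o' ho')
  obtain ⟨s, L, ⟨g, h2, h3, h4⟩, h5⟩ := h1 univ
  have h6 : ∀ (i : Fin a) (j : Fin b), ∃ k < s, ∀ x, val g x k = pm i j r x := fun i j =>
    h4 _ (h5 (i, j) (mem_univ _))
  choose o ho1 ho2 using h6
  refine ⟨s, g, fun i j => ⟨o i j, ho1 i j⟩, h2, fun x i j => ?_, ?_⟩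
  · show val g x (o i j) = _
    rw [ho2, pm_eq]
  · rw [h3]
    simp

end upper

end Pool.Agent.K4H91.MG
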