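import Pool.Agent.K4H91.MG.Calc

/-!
# Min-plus products and distances
-/

set_option autoImplicit false

namespace Pool.Agent.K4H91.MG

open Finset Filter Topology

theorem inf_affine {r : ℕ} (h : Fin (r + 1) → ℝ) (c t : ℝ) (ht : 0 ≤ t) :
    univ.inf' univ_nonempty (fun k => c + t * h k) = c + t * univ.inf' univ_nonempty h := by
  apply le_antisymm
  · obtain ⟨k, -, hk⟩ := Finset.exists_mem_eq_inf' (univ_nonempty) h
    rw [hk]
    exact Finset.inf'_le _ (mem_univ k)
  · apply Finset.le_inf'
    intro k _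
    have := mul_le_mul_of_nonneg_left (Finset.inf'_le h (mem_univ k)) ht
    linarith

/-- the minimum over `k` of the sums of two entries -/
noncomputable def mp {E I J : Type} {r : ℕ} (ε : (I × Fin (r + 1)) ⊕ (Fin (r + 1) × J) ↪ E)
    (x : E → ℝ) (i : I) (j : J) : ℝ :=
  univ.inf' univ_nonempty fun k => x (ε (Sum.inl (i, k))) + x (ε (Sum.inr (k, j)))

theorem mp_le {E I J : Type} {r : ℕ} (ε : (I × Fin (r + 1)) ⊕ (Fin (r + 1) × J) ↪ E)
    (x : E → ℝ) (i : I) (j : J) (k : Fin (r + 1)) :
    mp ε x i j ≤ x (ε (Sum.inl (i, k))) + x (ε (Sum.inr (k, j))) :=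
  Finset.inf'_le _ (mem_univ k)

theorem mp_const {E I J : Type} {r : ℕ} (ε : (I × Fin (r + 1)) ⊕ (Fin (r + 1) × J) ↪ E)
    (x : E → ℝ) (i : I) (j : J) (h : ∀ k, x (ε (Sum.inl (i, k))) + x (ε (Sum.inr (k, j))) = 0) :
    mp ε x i j + mp ε (-x) i j = 0 := by
  unfold mp
  have h1 : (fun k => x (ε (Sum.inl (i, k))) + x (ε (Sum.inr (k, j)))) = fun _ => 0 := funext h
  have h2 : (fun k => (-x) (ε (Sum.inl (i, k))) + (-x) (ε (Sum.inr (k, j)))) = fun _ => 0 := by
    funext k
    simp only [Pi.neg_apply]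
    have := h k
    linarith
  rw [h1, h2]
  simp

/-- programs which compute the min-plus product near a point where all sums are the same -/
theorem mp_bound {E I J : Type} [Fintype E] [Fintype I] [Fintype J] {r : ℕ}
    (ε : (I × Fin (r + 1)) ⊕ (Fin (r + 1) × J) ↪ E) (g : ∀ i, Gate E i) (W : E → ℝ) (s : ℕ)
    (hW : ∀ a, W (ε a) = 1) (hleg : ∀ i < s, LegalAt g W i) (out : I × J → Fin s)
    (hout : ∀ o : I × J, ∀ u : E → ℝ, ∀ᶠ t in 𝓝[Set.Ici 0] (0 : ℝ),
      val g (W + t • u) (out o) = mp ε (W + t • u) o.1 o.2) :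
    Fintype.card I * Fintype.card J * r ≤
      ((range s).filter fun i => (g i).isMin = true).card := by
  classical
  rw [← Fintype.card_prod]
  refine bound g W s hleg out (fun o u => mp ε u o.1 o.2) ?_ ?_ r
    (fun o => LinearMap.range (LinearMap.pi (R := ℝ) (fun e : E =>
      ∑ k : Fin r, (if e = ε (Sum.inl (o.1, k.succ)) then (1 : ℝ) else 0) •
        (LinearMap.proj k : (Fin r → ℝ) →ₗ[ℝ] ℝ)))) ?_ ?_
  · -- derivatives of the outputs
    intro o u
    have h1 : ∀ t : ℝ, 0 ≤ t → mp ε (W + t • u) o.1 o.2 = 2 + t * mp ε u o.1 o.2 := by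
      intro t ht
      unfold mp
      rw [← inf_affine _ _ _ ht]
      congr 1
      funext k
      simp only [Pi.add_apply, Pi.smul_apply, smul_eq_mul, hW]
      ring
    have h2 : HasDerivWithinAt (fun t : ℝ => 2 + t * mp ε u o.1 o.2) (mp ε u o.1 o.2)
        (Set.Ici 0) 0 := by
      have := ((hasDerivAt_id (0 : ℝ)).mul_const (mp ε u o.1 o.2)).const_add 2
      rw [one_mul] at this
      exact this.hasDerivWithinAt
    have h3 := (hout o u)
    refine h2.congr_of_eventuallyEq ?_ ?_
    · filter_upwards [h3, self_mem_nhdsWithin] with t ht1 ht2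
      rw [ht1, h1 t ht2]
    · have h4 := h3.self_of_nhdsWithin (Set.mem_Ici.2 le_rfl)
      rw [h4, h1 0 le_rfl]
  · -- separation
    rintro ⟨i, j⟩ ⟨i', j'⟩ hne u
    by_cases hi : i = i'
    · subst hi
      have hj : j ≠ j' := fun h => hne (by rw [h])
      let v' : E → ℝ := fun e => ∑ k, if e = ε (Sum.inr (k, j)) then
        u (ε (Sum.inl (i, k))) + u (ε (Sum.inr (k, j))) else 0
      have hv1 : ∀ k, v' (ε (Sum.inr (k, j))) =
          u (ε (Sum.inl (i, k))) + u (ε (Sum.inr (k, j))) := by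
        intro k
        simp [v']
      have hv2 : ∀ a, (∀ k, a ≠ Sum.inr (k, j)) → v' (ε a) = 0 := by
        intro a ha
        refine Finset.sum_eq_zero fun k _ => ?_
        rw [if_neg (fun h => ha k (ε.injective h))]
      refine ⟨u - v', v', by simp, ?_, ?_⟩
      · apply mp_const
        intro k
        simp only [Pi.sub_apply]
        rw [hv1, hv2 _ (by simp)]
        ring
      · apply mp_const
        intro k
        rw [hv2 _ (by simp), hv2 _ (by
          intro k' h
          simp only [Sum.inr.injEq, Prod.mk.injEq] at h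
          exact hj h.2.symm)]
        simp
    · let v' : E → ℝ := fun e => ∑ k, if e = ε (Sum.inl (i, k)) then
        u (ε (Sum.inl (i, k))) + u (ε (Sum.inr (k, j))) else 0
      have hv1 : ∀ k, v' (ε (Sum.inl (i, k))) =
          u (ε (Sum.inl (i, k))) + u (ε (Sum.inr (k, j))) := by
        intro k
        simp [v']
      have hv2 : ∀ a, (∀ k, a ≠ Sum.inl (i, k)) → v' (ε a) = 0 := by
        intro a ha
        refine Finset.sum_eq_zero fun k _ => ?_
        rw [if_neg (fun h => ha k (ε.injective h))]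
      refine ⟨u - v', v', by simp, ?_, ?_⟩
      · apply mp_const
        intro k
        simp only [Pi.sub_apply]
        rw [hv1, hv2 _ (by simp)]
        ring
      · apply mp_const
        intro k
        rw [hv2 _ (by
          intro k' h
          simp only [Sum.inl.injEq, Prod.mk.injEq] at h
          exact hi h.1.symm), hv2 _ (by simp)]
        simp
  · -- dimension
    rintro ⟨i, j⟩
    rw [LinearMap.finrank_range_of_inj]
    · simp
    · intro y z hyz
      funext k
      have h1 := congrFun hyz (ε (Sum.inl (i, k.succ)))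
      simpa [LinearMap.pi_apply] using h1
  · -- no nontrivial directions
    rintro ⟨i, j⟩ u ⟨y, rfl⟩ h
    have hy : ∀ k : Fin r, (LinearMap.pi (R := ℝ) (fun e : E =>
      ∑ k : Fin r, (if e = ε (Sum.inl (i, k.succ)) then (1 : ℝ) else 0) •
        (LinearMap.proj k : (Fin r → ℝ) →ₗ[ℝ] ℝ))) y (ε (Sum.inl (i, k.succ))) = y k := by
      intro k
      simp [LinearMap.pi_apply]
    have hy0 : ∀ a, (∀ k : Fin r, a ≠ Sum.inl (i, k.succ)) → (LinearMap.pi (R := ℝ) (fun e : E =>
      ∑ k : Fin r, (if e = ε (Sum.inl (i, k.succ)) then (1 : ℝ) else 0) •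
        (LinearMap.proj k : (Fin r → ℝ) →ₗ[ℝ] ℝ))) y (ε a) = 0 := by
      intro a ha
      simp only [LinearMap.pi_apply, LinearMap.coe_sum, Finset.sum_apply, LinearMap.smul_apply]
      refine Finset.sum_eq_zero fun k _ => ?_
      rw [if_neg (fun h => ha k (ε.injective h)), zero_smul]
    set u := (LinearMap.pi (R := ℝ) (fun e : E =>
      ∑ k : Fin r, (if e = ε (Sum.inl (i, k.succ)) then (1 : ℝ) else 0) •
        (LinearMap.proj k : (Fin r → ℝ) →ₗ[ℝ] ℝ))) y with hu
    have h0 : y = 0 := by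
      funext k
      have a1 := mp_le ε u i j k.succ
      have a2 := mp_le ε (-u) i j k.succ
      have a3 := mp_le ε u i j 0
      have a4 := mp_le ε (-u) i j 0
      simp only [Pi.neg_apply] at a2 a4
      rw [hy k, hy0 _ (by simp)] at a1 a2
      rw [hy0 (Sum.inl (i, 0)) (by simp [Fin.succ_ne_zero, eq_comm]), hy0 (Sum.inr (0, j)) (by simp)] at a3 a4
      have h' : mp ε u i j + mp ε (-u) i j = 0 := h
      show y k = 0
      linarith
    rw [hu, h0, map_zero]

end Pool.Agent.K4H91.MG
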